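import Mathlib
import Pool.Agent.Lib.MT2.DMain82

/-!
MP_c6d112_nt: for all `m ≥ 1`, `r` and `ε > 0` there is `C` such that for every `N ≥ C` and all
signs all but at most `ε N` of the `n ≤ N` have at least `N / (log N)^C` representations
`n = a + b` for which `a`, `a ± 2` and `b` are bounded multiples of primes with the same number
`≡ r` modulo `m` of prime factors, and `b ± 2` is an almost prime.
-/

set_option autoImplicit false

namespace Pool.Agent.Results.MP_c6d112_nt.AlmostAllPrimePairs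

open Finset ArithmeticFunction

/-- `x = d p` with `1 ≤ d ≤ C` and `p` prime -/
def PrimeMult (C x : ℕ) : Prop := ∃ d p : ℕ, x = d * p ∧ 1 ≤ d ∧ d ≤ C ∧ p.Prime

/-- `x` has at most `C` prime factors (with multiplicity) and is a product `x = d y` with
`1 ≤ d ≤ C` in which all prime factors `q` of `y` satisfy `N ≤ q ^ C` -/
def NearPrime (C N x : ℕ) : Prop :=
  cardFactors x ≤ C ∧
    ∃ d y : ℕ, x = d * y ∧ 1 ≤ d ∧ d ≤ C ∧ ∀ q : ℕ, q.Prime → q ∣ y → N ≤ q ^ C

/-- `n = a + b` where `a`, `a' = a + s` and `b` are bounded multiples of primes with the same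
number `≡ r` modulo `m` of prime factors, and `b' = b + s' > 0` is an almost prime -/
def Rep (C N m r : ℕ) (s s' : ℤ) (n a : ℕ) : Prop :=
  ∃ a' b b' : ℕ, n = a + b ∧ (a' : ℤ) = a + s ∧ (b' : ℤ) = b + s' ∧
    PrimeMult C a ∧ PrimeMult C a' ∧ PrimeMult C b ∧ 0 < b' ∧ NearPrime C N b' ∧
    cardFactors a' = cardFactors a ∧ cardFactors b = cardFactors a ∧ cardFactors a ≡ r [MOD m]

open Classical in
/-- the number of `a ≤ n` with `Rep C N m r s s' n a` -/
noncomputable def reps (C N m r : ℕ) (s s' : ℤ) (n : ℕ) : ℕ :=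
  ((Icc 1 n).filter (Rep C N m r s s' n)).card

open Classical in
/-- For all `m ≥ 1`, `r` and `ε > 0` there is `C` such that for every `N ≥ C` and all signs `s`,
`s'` all but at most `ε N` of the `n ≤ N` have at least `N / (log N)^C` representations. -/
theorem result : ∀ m r : ℕ, 0 < m → ∀ ε : ℝ, 0 < ε → ∃ C : ℕ, ∀ N : ℕ, C ≤ N →
    ∀ s s' : ℤ, (s = 2 ∨ s = -2) → (s' = 2 ∨ s' = -2) →
      (((Icc 1 N).filter (fun n =>
        (reps C N m r s s' n : ℝ) * (Real.log N) ^ C < N)).card : ℝ) ≤ ε * N := by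
  intro m r hm ε hε
  obtain ⟨C, hC⟩ := Pool.Agent.Lib.MT2.Main82.dstmt m r hm ε hε
  exact ⟨C, fun N hN s s' hs hs' => hC N hN s s' hs hs'⟩

end Pool.Agent.Results.MP_c6d112_nt.AlmostAllPrimePairs
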