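import Mathlib
import Pool.Agent.Lib.TwinAll.All2x73

/-!
MP_c6d112_nt: for every `ε > 0` and each parity `r` there is `C` such that all but at most `ε N` of
the even numbers `n ≤ N` have at least `N / (C (log N)^6)` representations `n = a + b` for which
`a`, `a + 2`, `b`, `b + 2` are almost primes, each of the four with a number of prime factors
`≡ r` modulo 2.
-/

set_option autoImplicit false

namespace Pool.Agent.Results.MP_c6d112_nt.AlmostAllTwinSums

open Finset Pool.Agent.Lib.TwinAll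

/-- `x` has at most `C` prime factors (with multiplicity) and is a product `x = d y` with
`1 ≤ d ≤ C` in which all prime factors `p` of `y` satisfy `N < p ^ C` -/
def NearPrime (C N x : ℕ) : Prop :=
  ArithmeticFunction.cardFactors x ≤ C ∧
    ∃ d y : ℕ, x = d * y ∧ 1 ≤ d ∧ d ≤ C ∧ ∀ p : ℕ, p.Prime → p ∣ y → N < p ^ C

/-- `x > 0` and `x + 2` are almost primes, both with a number of prime factors `≡ r` modulo 2 -/
def ParityTwin (C N r x : ℕ) : Prop :=
  0 < x ∧ ArithmeticFunction.cardFactors x ≡ r [MOD 2] ∧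
    ArithmeticFunction.cardFactors (x + 2) ≡ r [MOD 2] ∧ NearPrime C N x ∧ NearPrime C N (x + 2)

open Classical in
/-- the number of `a ≤ n` such that `a` and `b = n - a` satisfy `ParityTwin` -/
noncomputable def reps (C N r n : ℕ) : ℕ :=
  ((Finset.Icc 1 n).filter (fun a => ParityTwin C N r a ∧ ParityTwin C N r (n - a))).card

open Classical in
theorem of_main (h : MainStmt2) (ε : ℝ) (hε : 0 < ε) (r : ℕ) : ∃ C : ℕ, ∀ N : ℕ, C ≤ N →
    (((Finset.Icc 1 N).filter (fun n => Even n ∧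
      (reps C N r n : ℝ) * (C * Real.log N ^ 6) < N)).card : ℝ) ≤ ε * N := by
  obtain ⟨C0, hC0, hC⟩ := h ε hε ((-1 : ℝ) ^ r) (neg_one_pow_eq_or ℝ r)
  have hmono : ∀ (C C' N x : ℕ), C ≤ C' → 1 ≤ N → NearPrime C N x → NearPrime C' N x := by
    rintro C C' N x hCC hN ⟨h1, d, y, h2, h3, h4, h5⟩
    refine ⟨h1.trans hCC, d, y, h2, h3, h4.trans hCC, fun p hp hpy => ?_⟩
    exact (h5 p hp hpy).trans_le (Nat.pow_le_pow_right hp.pos hCC)
  refine ⟨C0 + 2, fun N hN => le_trans ?_ (hC N (by omega))⟩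
  have hg : ∀ x, A81.Good ((-1 : ℝ) ^ r) C0 N x → ParityTwin (C0 + 2) N r x := by
    rintro x ⟨h0, h1, h2, h3, h4⟩
    exact ⟨h0, (A81.lam_eq_iff _ _).1 h1, (A81.lam_eq_iff _ _).1 h2,
      hmono C0 _ N x (by omega) (by omega) h3, hmono C0 _ N _ (by omega) (by omega) h4⟩
  have hr : ∀ n, Pool.Agent.Lib.TwinAll.reps ((-1 : ℝ) ^ r) C0 N n ≤ reps (C0 + 2) N r n := by
    intro n
    unfold Pool.Agent.Lib.TwinAll.reps reps
    refine Finset.card_le_card (fun a ha => ?_)
    rw [Finset.mem_filter] at ha ⊢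
    rw [Finset.mem_range] at ha
    rw [Finset.mem_Icc]
    have h0 : 0 < a := ha.2.1.1
    exact ⟨⟨h0, by omega⟩, hg _ ha.2.1, hg _ ha.2.2⟩
  have hlog : 0 < Real.log N := Real.log_pos (by exact_mod_cast (by omega : 1 < N))
  refine Nat.cast_le.2 (Finset.card_le_card (fun n hn => ?_))
  rw [Finset.mem_filter] at hn ⊢
  refine ⟨hn.1, hn.2.1, ?_⟩
  have hC0' : (0 : ℝ) < C0 := by exact_mod_cast hC0
  have h1 : (Pool.Agent.Lib.TwinAll.reps ((-1 : ℝ) ^ r) C0 N n : ℝ) ≤ reps (C0 + 2) N r n := by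
    exact_mod_cast hr n
  have h2 : (0 : ℝ) < C0 * Real.log N ^ 6 := by positivity
  rw [lt_div_iff₀ h2]
  refine lt_of_le_of_lt ?_ hn.2.2
  refine mul_le_mul h1 ?_ h2.le (Nat.cast_nonneg _)
  refine mul_le_mul_of_nonneg_right ?_ (by positivity)
  push_cast
  linarith

open Classical in
/-- For every `ε > 0` and each parity `r` there is `C` such that for every `N ≥ C` all but at most
`ε N` of the even numbers `n ≤ N` have at least `N / (C (log N)^6)` representations as `a + b` with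
`ParityTwin C N r a`, `ParityTwin C N r b`. -/
theorem result : ∀ ε : ℝ, 0 < ε → ∀ r : ℕ, ∃ C : ℕ, ∀ N : ℕ, C ≤ N →
    (((Finset.Icc 1 N).filter (fun n => Even n ∧
      (reps C N r n : ℝ) * (C * Real.log N ^ 6) < N)).card : ℝ) ≤ ε * N :=
  of_main theoremA2

end Pool.Agent.Results.MP_c6d112_nt.AlmostAllTwinSums
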