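import Mathlib
import Pool.Agent.Lib.MT2.All2

/-!
MP_c6d112_nt: a positive proportion of the even numbers are sums `n = a + b` such that the four
numbers `a`, `a + 2`, `b`, `b + 2` are bounded multiples of primes, all with the same number of
prime factors.
-/

set_option autoImplicit false

namespace Pool.Agent.Results.MP_c6d112_nt.FourPrimeMultiples

open ArithmeticFunction (cardFactors)

/-- `x = d p` with `1 ≤ d ≤ C` and `p` prime -/
def PrimeMult (C x : ℕ) : Prop := ∃ d p : ℕ, x = d * p ∧ 1 ≤ d ∧ d ≤ C ∧ p.Prime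

/-- For all `m ≥ 1` and `r` there is `C` such that for every `N ≥ C` there is `g ≤ C`,
`g ≡ r (mod m)`, such that at least `N / C` even numbers `n ≤ N` are `n = a + b` with all four
numbers `a, a + 2, b, b + 2` of the form `d p`, `d ≤ C`, and with exactly `g` prime factors. -/
theorem result (m r : ℕ) (hm : 0 < m) : ∃ C : ℕ, ∀ N : ℕ, C ≤ N →
    ∃ (g : ℕ) (S : Finset ℕ), g ≤ C ∧ g ≡ r [MOD m] ∧ N ≤ C * S.card ∧
      ∀ n ∈ S, n ≤ N ∧ Even n ∧ ∃ a b : ℕ, 0 < a ∧ 0 < b ∧ n = a + b ∧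
        ∀ x ∈ ({a, a + 2, b, b + 2} : Finset ℕ), PrimeMult C x ∧ cardFactors x = g :=
  Pool.Agent.Lib.MT2.All2.b_all m r hm

end Pool.Agent.Results.MP_c6d112_nt.FourPrimeMultiples
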