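import Mathlib
import Pool.Agent.Lib.MT2.All2

/-!
MP_c6d112_nt: every large `N` is a sum `N = a + b` in which `a` and `a ± 2` are both bounded
multiples of primes with the same number of prime factors, and `b`, `b ± 2` are almost primes.
-/

set_option autoImplicit false

namespace Pool.Agent.Results.MP_c6d112_nt.PrimePairSums

open ArithmeticFunction (cardFactors)

/-- `x = d p` with `1 ≤ d ≤ C` and `p` prime -/
def PrimeMult (C x : ℕ) : Prop := ∃ d p : ℕ, x = d * p ∧ 1 ≤ d ∧ d ≤ C ∧ p.Prime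

/-- all prime factors are at most `C` or at least `N ^ (1 / C)`, and there are at most `C` of them,
counted with multiplicity -/
def AlmostPrime (C N n : ℕ) : Prop :=
  cardFactors n ≤ C ∧ ∀ p : ℕ, p.Prime → p ∣ n → p ≤ C ∨ N ≤ p ^ C

/-- For all `m ≥ 1` and `r` there is `C` such that for all `N ≥ C` and all signs `δ, ε ∈ {2, -2}`
at least `N / (log N) ^ C` integers `a` satisfy `N = a + b` with `a`, `a + δ` bounded multiples of
primes, `Ω(a) = Ω(a + δ) ≡ r (mod m)`, and `b`, `b + ε` positive almost primes. -/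
theorem result (m r : ℕ) (hm : 0 < m) : ∃ C : ℕ, ∀ N : ℕ, C ≤ N →
    ∀ δ ε : ℤ, (δ = 2 ∨ δ = -2) → (ε = 2 ∨ ε = -2) →
    ∃ S : Finset ℕ, (N : ℝ) / (Real.log N) ^ C ≤ (S.card : ℝ) ∧ ∀ a ∈ S, ∃ a' b b' : ℕ,
      N = a + b ∧ (a' : ℤ) = a + δ ∧ (b' : ℤ) = b + ε ∧ 0 < b ∧ 0 < b' ∧
      PrimeMult C a ∧ PrimeMult C a' ∧ cardFactors a = cardFactors a' ∧
      cardFactors a ≡ r [MOD m] ∧ AlmostPrime C N b ∧ AlmostPrime C N b' :=
  Pool.Agent.Lib.MT2.All2.a_all m r hm

end Pool.Agent.Results.MP_c6d112_nt.PrimePairSums
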